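import Mathlib

set_option autoImplicit false

open Set Filter Topology TopologicalSpace MeasureTheory PiNat

namespace Pool.Agent.H.MP_843a88

abbrev V : Type := ℕ → ℕ

/-- no large family splitting at a single node -/
def Ind (n : ℕ) (A : Set V) : Prop := ∀ (k : ℕ) (S : Finset V), ↑S ⊆ A →
  (∀ v ∈ S, ∀ w ∈ S, v ≠ w → res v k = res w k ∧ v k ≠ w k) → S.card ≤ n + 2

lemma Ind.mono {n : ℕ} {A B : Set V} (h : Ind n A) (e : B ⊆ A) : Ind n B :=
  fun k S a => h k S (a.trans e)

lemma link {n l : ℕ} {a b : Set V} (h : Ind n a) (h1 : InjOn (res · l) a) (h2 : InjOn (res · l) b)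
    (e : (res · l) '' b ⊆ (res · l) '' a) : Ind n (a ∪ b) := fun k S s1 s2 => by
  classical
  rcases lt_or_ge k l with c | c
  · have : ∀ v ∈ a ∪ b, ∃ u ∈ a, res u l = res v l := by
      rintro v (h | h)
      exacts [⟨v, h, rfl⟩, e ⟨v, h, rfl⟩]
    choose! g g1 g2 using this
    have g3 := fun v hv => res_eq_res.1 (g2 v (s1 hv))
    rw [← Finset.card_image_of_injOn (f := g) fun v hv w hw e => by
      by_contra k; exact (s2 v hv w hw k).2 ((g3 v hv c).symm.trans (e ▸ g3 w hw c))]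
    refine h k _ (by rw [Finset.coe_image]; exact image_subset_iff.2 fun v hv => g1 v (s1 hv)) ?_
    simp only [Finset.mem_image, forall_exists_index, and_imp, forall_apply_eq_imp_iff₂]
    intro v hv w hw e
    have := s2 v hv w hw fun k => e (k ▸ rfl)
    exact ⟨res_eq_res.2 fun m hm => (g3 v hv (hm.trans c)).trans ((res_eq_res.1 this.1 hm).trans
      (g3 w hw (hm.trans c)).symm), by rw [g3 v hv c, g3 w hw c]; exact this.2⟩
  · have k : ∀ {a : Set V}, InjOn (res · l) a → (S.filter (· ∈ a)).card ≤ 1 := fun h =>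
      Finset.card_le_one.2 fun v hv w hw => by
        rw [Finset.mem_filter] at hv hw
        by_contra k
        exact k (h hv.2 hw.2 (res_eq_res.2 fun m hm =>
          res_eq_res.1 (s2 v hv.1 w hw.1 k).1 (hm.trans_le c)))
    refine (Finset.card_le_card (t := S.filter (· ∈ a) ∪ S.filter (· ∈ b)) fun v hv => ?_).trans
      ((Finset.card_union_le _ _).trans (by linarith [k h1, k h2]))
    simpa [hv] using s1 hv

lemma sepl {T : Set V} (h : T.Finite) : ∃ l, InjOn (res · l) T := by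
  have : ∀ᶠ l in atTop, ∀ p ∈ T ×ˢ T, res p.1 l = res p.2 l → p.1 = p.2 :=
    (eventually_all_finite (h.prod h)).2 fun p _ => by
      by_cases e : p.1 = p.2
      · simp [e]
      · obtain ⟨k, hk⟩ := Function.ne_iff.1 e
        exact (eventually_gt_atTop k).mono fun l a b => (hk (res_eq_res.1 b a)).elim
  exact this.exists.imp fun l h v a w b => h (v, w) ⟨a, b⟩

lemma tree (W : ℕ → Set V) (h : ∀ v, ∃ k, v ∈ W k) :
    ∃ (w : V) (k : ℕ), ∀ i, ∃ v ∈ W k, res v k = res w k ∧ v k = i := by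
  by_contra! e
  choose g hg using e
  let u : ℕ → V := fun k => Nat.rec 0 (fun k u => Function.update u k (g u k)) k
  have e : ∀ k m, m < k → u k m = u (m + 1) m := fun k m h => by
    induction k, h using Nat.le_induction with
    | base => rfl
    | succ k h ih => exact (Function.update_of_ne (Nat.ne_of_lt h) _ _).trans ih
  obtain ⟨k, hk⟩ := h fun m => u (m + 1) m
  exact hg (u k) k _ hk (res_eq_res.2 fun m h => (e k m h).symm) (Function.update_self ..)

lemma null {X : Type} [MeasurableSpace X] (μ : Measure X) [IsFiniteMeasure μ] (n : ℕ)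
    (U : V → Set X) (h1 : ∀ v, MeasurableSet (U v))
    (h2 : ∀ x, ∀ S : Finset V, (∀ v ∈ S, x ∈ U v) → Ind n S) : ∃ v, μ (U v) = 0 := by
  classical
  by_contra! h
  obtain ⟨w, k, e⟩ := tree (fun k => {v | (k : ENNReal)⁻¹ < μ (U v)}) fun v =>
    ENNReal.exists_inv_nat_lt (h v)
  choose v v1 v2 v3 using e
  obtain ⟨t, t1, t2⟩ := bergelson' (μ := μ) (fun i => h1 (v i))
    (ENNReal.inv_ne_zero.2 (ENNReal.natCast_ne_top k)) fun i => (v1 i).le
  obtain ⟨s, s1, s2⟩ := t1.exists_subset_card_eq (n + 3)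
  obtain ⟨x, hx⟩ := nonempty_of_measure_ne_zero (t2 s1 s.finite_toSet).ne'
  have := h2 x (s.image v) (by simpa using hx) k _ subset_rfl (by
    simp only [Finset.mem_image, forall_exists_index, and_imp, forall_apply_eq_imp_iff₂]
    exact fun i _ j _ e => ⟨(v2 i).trans (v2 j).symm, by
      rw [v3, v3]; exact fun k => e (k ▸ rfl)⟩)
  rw [Finset.card_image_of_injective (f := v) _ fun i j e =>
    (v3 i).symm.trans (e ▸ v3 j)] at this
  omega

def P : Type := {a : ℕ → Finset V // ∀ k, ∀ᶠ n in atTop, k * (a n).card ≤ n}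

lemma diag {T : Set P} (h : T.Countable) : ∃ b : P, ∀ a ∈ T, ∀ᶠ n in atTop, a.1 n ⊆ b.1 n := by
  classical
  obtain ⟨a, ha⟩ := (h.insert ⟨fun _ => ∅, by simp⟩).exists_eq_range (insert_nonempty _ _)
  let c : ℕ → P := fun j => Nat.rec (a 0) (fun j c => ⟨fun n => c.1 n ∪ (a (j + 1)).1 n, fun k => by
    filter_upwards [c.2 (2 * k), (a (j + 1)).2 (2 * k)] with n h1 h2
    nlinarith [Nat.mul_le_mul_left k (Finset.card_union_le (c.1 n) ((a (j + 1)).1 n))]⟩) j
  have m : ∀ n, Monotone fun j => (c j).1 n := fun n =>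
    monotone_nat_of_le_succ fun j => Finset.subset_union_left
  choose N hN using fun j => eventually_atTop.1 ((c j).2 j)
  have k : ∀ j, ∀ᶠ n in atTop, j ≤ Nat.findGreatest (N · ≤ n) n ∧
      N (Nat.findGreatest (N · ≤ n) n) ≤ n := fun j => by
    filter_upwards [eventually_ge_atTop j, eventually_ge_atTop (N j)] with n h1 h2
    exact ⟨Nat.le_findGreatest h1 h2, Nat.findGreatest_spec (P := (N · ≤ n)) h1 h2⟩
  refine ⟨⟨fun n => (c (Nat.findGreatest (N · ≤ n) n)).1 n, fun j => (k j).mono fun n h =>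
    (Nat.mul_le_mul_right _ h.1).trans (hN _ _ h.2)⟩, fun b hb => ?_⟩
  obtain ⟨j, rfl⟩ := ha.le (.inr hb)
  refine (k j).mono fun n h => .trans ?_ (m n h.1)
  cases j
  exacts [subset_rfl, Finset.subset_union_right]

abbrev J : Type := (ℕ × Finset V) ⊕ P

open Classical in
noncomputable def φ (p : ℕ × Set V) : J → Bool :=
  Sum.elim (fun q => decide (p.1 = q.1 ∧ ↑q.2 ⊆ p.2)) fun a => decide (↑(a.1 p.1) ⊆ p.2)

def Y : Set (J → Bool) := φ '' {p | Ind p.1 p.2}
def pt : J → Bool := Sum.elim (fun _ => false) fun _ => true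

lemma nb {y : J → Bool} {U : Set (J → Bool)} (h : U ∈ 𝓝 y) :
    ∃ S : Set J, S.Finite ∧ ∀ z : J → Bool, (∀ j ∈ S, z j = y j) → z ∈ U := by
  rw [nhds_pi, Filter.mem_pi] at h
  obtain ⟨S, s1, t, t1, t2⟩ := h
  exact ⟨S, s1, fun z hz => t2 fun j hj => hz j hj ▸ mem_of_mem_nhds (t1 j)⟩

lemma cl {y : J → Bool} (h : y ∈ closure Y) {S : Set J} (hS : S.Finite) :
    ∃ p, Ind p.1 p.2 ∧ ∀ j ∈ S, φ p j = y j := by
  obtain ⟨_, a, p, b, rfl⟩ := mem_closure_iff_nhds.1 h _ (set_pi_mem_nhds hS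
    (s := fun j => {y j}) fun j _ => (isOpen_discrete _).mem_nhds rfl)
  exact ⟨p, b, a⟩

lemma pt_mem : pt ∈ closure Y := mem_closure_iff_nhds.2 fun U hU => by
  obtain ⟨S, s1, s2⟩ := nb hU
  have f := s1.preimage (f := Sum.inr) Sum.inr_injective.injOn
  obtain ⟨b, hb⟩ := diag f.countable
  obtain ⟨n, h1, h2, h3⟩ := (((eventually_all_finite f).2 hb).and ((b.2 1).and
    ((eventually_all_finite (s1.preimage (f := Sum.inl) Sum.inl_injective.injOn)).2 fun q _ =>
      eventually_ne_atTop q.1))).exists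
  refine ⟨_, s2 (φ (n, b.1 n)) ?_, _, fun k S s _ => ?_, rfl⟩
  · rintro (q | a) hj
    · simp [φ, pt, h3 q hj]
    · simp [φ, pt, h1 a hj]
  · have := Finset.card_le_card (Finset.coe_subset.1 s)
    dsimp only; omega

end Pool.Agent.H.MP_843a88
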