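import Pool.Agent.H.MP_843a88.A

set_option autoImplicit false

open Set Filter Topology TopologicalSpace MeasureTheory PiNat

namespace Pool.Agent.H.MP_843a88

lemma box {p : ℕ × Set V} {U : Set (J → Bool)} (h : U ∈ 𝓝 (φ p)) : ∃ a b : Set V, a.Finite ∧
    b.Finite ∧ a ⊆ p.2 ∧ Disjoint b p.2 ∧ ∀ A, a ⊆ A → Disjoint b A → φ (p.1, A) ∈ U := by
  obtain ⟨S, s1, s2⟩ := nb h
  let F : Set V := ⋃ j ∈ S, (Sum.elim Prod.snd (fun a : P => a.1 p.1) j : Finset V)
  have f : F.Finite := s1.biUnion fun _ _ => Finset.finite_toSet _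
  refine ⟨F ∩ p.2, F \ p.2, f.inter_of_left _, f.sdiff, inter_subset_right, disjoint_sdiff_left,
    fun A a b => s2 _ fun j hj => ?_⟩
  have : ∀ s : Finset V, ↑s ⊆ F → (↑s ⊆ A ↔ ↑s ⊆ p.2) := fun s hs => forall₂_congr fun v hv =>
    ⟨fun h => not_not.1 fun k => disjoint_left.1 b ⟨hs hv, k⟩ h, fun h => a ⟨hs hv, h⟩⟩
  have := this _ (subset_biUnion_of_mem (u := fun j =>
    ((Sum.elim Prod.snd (fun a : P => a.1 p.1) j : Finset V) : Set V)) hj)
  rcases j with q | a <;> simp_all [φ]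

lemma ccc (C : Set (Set (J → Bool))) (h1 : ∀ U ∈ C, IsOpen U ∧ (U ∩ Y).Nonempty)
    (h2 : C.Pairwise fun U W => U ∩ W ∩ Y = ∅) : C.Countable := by
  choose! p p1 p2 using fun U (h : U ∈ C) => (show ∃ p, Ind p.1 p.2 ∧ φ p ∈ U by
    obtain ⟨_, a, p, b, rfl⟩ := (h1 U h).2; exact ⟨p, b, a⟩)
  choose! a b a1 b1 a2 b2 ab using fun U (h : U ∈ C) => box ((h1 U h).1.mem_nhds (p2 U h))
  choose! l hl using fun U (h : U ∈ C) => sepl ((a1 U h).union (b1 U h))
  refine MapsTo.countable_of_injOn (f := fun U => ((p U).1, l U, (res · (l U)) '' a U,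
    (res · (l U)) '' b U)) (t := univ ×ˢ univ ×ˢ {s : Set (List ℕ) | s.Finite} ×ˢ
      {s : Set (List ℕ) | s.Finite})
    (fun U h => ⟨trivial, trivial, (a1 U h).image _, (b1 U h).image _⟩) (fun U u W w e => ?_)
    (countable_univ.prod (countable_univ.prod
      (Countable.ofPred_finite.prod Countable.ofPred_finite)))
  simp only [Prod.mk.injEq] at e
  obtain ⟨e1, e2, e3, -⟩ := e
  have k : ∀ {U W}, U ∈ C → (res · (l U)) '' a W ⊆ (res · (l U)) '' a U →
      Disjoint (b U) (a U ∪ a W) := fun {U W} u e => disjoint_left.2 fun v hv h => by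
    obtain ⟨x, x1, x2⟩ : res v (l U) ∈ (res · (l U)) '' a U := h.elim (fun h => ⟨v, h, rfl⟩)
      fun h => e ⟨v, h, rfl⟩
    exact disjoint_left.1 (b2 U u) hv (hl U u (.inl x1) (.inr hv) x2 ▸ a2 U u x1)
  by_contra n
  refine eq_empty_iff_forall_notMem.1 (h2 u w n) (φ ((p U).1, a U ∪ a W)) ⟨⟨ab U u _ subset_union_left
    (k u (e3.trans (by rw [e2])).ge), e1 ▸ ab W w _ subset_union_right (union_comm _ _ ▸ k w
      (by rw [← e3, e2]))⟩, _, link ((p1 U u).mono (a2 U u)) ((hl U u).mono subset_union_left)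
        (e2 ▸ (hl W w).mono subset_union_left) (e3.trans (by rw [e2])).ge, rfl⟩

abbrev X : Type := closure Y

lemma avoid [MeasurableSpace X] [BorelSpace X] (μ : Measure X) [IsFiniteMeasure μ]
    [μ.InnerRegular] (h : μ {⟨pt, pt_mem⟩} = 0) :
    ∃ N : Set X, IsOpen N ∧ ⟨pt, pt_mem⟩ ∈ N ∧ μ N = 0 := by
  classical
  have o : ∀ j, IsOpen {y : X | y.1 j = true} := fun j =>
    (isOpen_discrete {true}).preimage (show Continuous fun y : X => y.1 j from
      (continuous_apply j).comp continuous_subtype_val)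
  choose v hv using fun n => null μ n (fun v => {y | y.1 (.inl (n, {v})) = true})
    (fun _ => (o _).measurableSet) fun x S h => by
      obtain ⟨p, p1, p2⟩ := cl x.2 (S.finite_toSet.image fun v => .inl (n, {v}))
      have : ∀ v ∈ S, p.1 = n ∧ v ∈ p.2 := fun v hv => by
        simpa [φ] using (p2 _ ⟨v, hv, rfl⟩).trans (h v hv)
      rcases S.eq_empty_or_nonempty with rfl | ⟨w, hw⟩
      · exact fun k T t _ => by simp [show T = ∅ by simpa using t]
      · exact (this w hw).1 ▸ p1.mono fun v hv => (this v hv).2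
  choose C c1 c2 c3 using fun i : ℕ => (measurableSet_singleton (⟨pt, pt_mem⟩ : X)).compl
    |>.exists_isCompact_sdiff_lt (measure_ne_top μ _) (ENNReal.inv_ne_zero.2
      (ENNReal.natCast_ne_top i))
  choose S s1 s2 using fun i => nb (y := pt) (((c2 i).image continuous_subtype_val).isClosed
    |>.isOpen_compl.mem_nhds (by rintro ⟨y, a, b⟩; exact c1 i a (Subtype.ext b)))
  obtain ⟨b, hb⟩ := diag ((countable_iUnion fun i => (s1 i).countable).preimage_of_injOn
    (f := Sum.inr) Sum.inr_injective.injOn)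
  let w : P := ⟨fun n => {v n}, fun k => by simpa using eventually_ge_atTop k⟩
  refine ⟨_, (o (.inr b)).inter (o (.inr w)), ⟨rfl, rfl⟩, measure_mono_null (t := (⋃ n, {y | y.1
    (.inl (n, {v n})) = true}) ∪ {⟨pt, pt_mem⟩} ∪ ⋂ i, {⟨pt, pt_mem⟩}ᶜ \ C i) (fun y hy => ?_)
    (measure_union_null (measure_union_null (measure_iUnion_null hv) h) ?_)⟩
  · by_contra! k
    simp only [mem_union, not_or, mem_iUnion, not_exists, mem_iInter, not_forall] at k
    obtain ⟨⟨k1, k2⟩, i, k3⟩ := k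
    have k4 : ∀ {T : Set J} {M : ℕ}, T.Finite → ∃ p, M ≤ p.1 ∧ ∀ j ∈ T, φ p j = y.1 j :=
      fun {T M} t => by
        obtain ⟨p, -, p2⟩ := cl y.2 ((t.union ((finite_Iio M).image fun n =>
          .inl (n, {v n}))).insert (.inr w))
        refine ⟨p, not_lt.1 fun e => k1 p.1 ((p2 _ (.inr (.inr ⟨_, e, rfl⟩))).symm.trans ?_),
          fun j hj => p2 j (.inr (.inl hj))⟩
        simpa [φ, w] using (p2 _ (.inl rfl)).trans hy.2
    refine s2 i y.1 (fun j hj => ?_) ⟨y, not_not.1 fun e => k3 ⟨k2, e⟩, rfl⟩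
    rcases j with q | a
    · obtain ⟨p, p1, p2⟩ := k4 (M := q.1 + 1) (finite_singleton (.inl q))
      rw [← p2 _ rfl]
      simp [φ, pt, (Nat.lt_of_succ_le p1).ne']
    · obtain ⟨M, hM⟩ := eventually_atTop.1 (hb a (mem_iUnion.2 ⟨i, hj⟩))
      obtain ⟨p, p1, p2⟩ := k4 (M := M) ((finite_singleton (.inr a)).insert (.inr b))
      rw [← p2 _ (.inr rfl)]
      have : ↑(b.1 p.1) ⊆ p.2 := by simpa [φ] using (p2 _ (.inl rfl)).trans hy.1
      simpa [φ, pt] using (Finset.coe_subset.2 (hM _ p1)).trans this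
  · by_contra e
    obtain ⟨i, hi⟩ := ENNReal.exists_inv_nat_lt e
    exact hi.not_gt ((measure_mono (iInter_subset _ i)).trans_lt (c3 i))

end Pool.Agent.H.MP_843a88
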